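import Pool.Agent.FTU.Stmts

/-!
# FTU row CUR (helper67): the rotation of `vps`
-/

set_option autoImplicit false

namespace Pool.Agent.FTU.H67

open Pool.Agent.MBX Pool.Agent.FTU

theorem coord (i : Fin 3) (A : ℝ → ℝ) (hA : Differentiable ℝ A) (x : Fin 3 → ℝ) :
    HasFDerivAt (fun z : Fin 3 → ℝ => A (z i))
      (deriv A (x i) • ContinuousLinearMap.proj (R := ℝ) (φ := fun _ : Fin 3 => ℝ) i) x := by
  have h1 : HasDerivAt A (deriv A (x i)) (x i) := (hA (x i)).hasDerivAt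
  exact h1.comp_hasFDerivAt x (hasFDerivAt_apply i x)

theorem tri (A B C : ℝ → ℝ) (hA : Differentiable ℝ A) (hB : Differentiable ℝ B)
    (hC : Differentiable ℝ C) (x v : Fin 3 → ℝ) :
    HasFDerivAt (fun z : Fin 3 → ℝ => A (z 0) * B (z 1) * C (z 2))
      (fderiv ℝ (fun z : Fin 3 → ℝ => A (z 0) * B (z 1) * C (z 2)) x) x ∧
    fderiv ℝ (fun z : Fin 3 → ℝ => A (z 0) * B (z 1) * C (z 2)) x v =
      deriv A (x 0) * v 0 * B (x 1) * C (x 2) + A (x 0) * (deriv B (x 1) * v 1) * C (x 2) +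
        A (x 0) * B (x 1) * (deriv C (x 2) * v 2) := by
  have h : HasFDerivAt (fun z : Fin 3 → ℝ => A (z 0) * B (z 1) * C (z 2)) _ x :=
    ((coord 0 A hA x).mul (coord 1 B hB x)).mul (coord 2 C hC x)
  refine ⟨h.differentiableAt.hasFDerivAt, ?_⟩
  rw [h.fderiv]
  simp only [ContinuousLinearMap.add_apply, ContinuousLinearMap.smul_apply, smul_eq_mul,
    ContinuousLinearMap.proj_apply, Pi.mul_apply]
  ring

theorem cur : CurStmt := by
  intro b g p0 p2 p3 q h0 h2 h3 hq x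
  have d0 : Differentiable ℝ p0 := h0.differentiable (by simp)
  have d2 : Differentiable ℝ p2 := h2.differentiable (by simp)
  have d3 : Differentiable ℝ p3 := h3.differentiable (by simp)
  have dq : Differentiable ℝ q := hq.differentiable (by simp)
  have t0 := fun v => tri p0 p3 q d0 d3 dq x v
  have t1 := fun v => tri p3 p0 q d3 d0 dq x v
  have t2 := fun v => tri p2 p0 q d2 d0 dq x v
  have t2' := fun v => tri p0 p2 q d0 d2 dq x v
  have v0 : ∀ v : Fin 3 → ℝ, fderiv ℝ (fun z => vps b g p0 p2 p3 q z 0) x v =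
      -(g / 6) * fderiv ℝ (fun z : Fin 3 → ℝ => p0 (z 0) * p3 (z 1) * q (z 2)) x v := by
    intro v
    have h : HasFDerivAt (fun z => vps b g p0 p2 p3 q z 0)
        (-(g / 6) • fderiv ℝ (fun z : Fin 3 → ℝ => p0 (z 0) * p3 (z 1) * q (z 2)) x) x :=
      (t0 v).1.const_mul (-(g / 6))
    rw [h.fderiv]
    rfl
  have v1 : ∀ v : Fin 3 → ℝ, fderiv ℝ (fun z => vps b g p0 p2 p3 q z 1) x v =
      (g / 6) * fderiv ℝ (fun z : Fin 3 → ℝ => p3 (z 0) * p0 (z 1) * q (z 2)) x v := by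
    intro v
    have h : HasFDerivAt (fun z => vps b g p0 p2 p3 q z 1)
        ((g / 6) • fderiv ℝ (fun z : Fin 3 → ℝ => p3 (z 0) * p0 (z 1) * q (z 2)) x) x :=
      (t1 v).1.const_mul (g / 6)
    rw [h.fderiv]
    rfl
  have v2 : ∀ v : Fin 3 → ℝ, fderiv ℝ (fun z => vps b g p0 p2 p3 q z 2) x v =
      -(b / 4) * (fderiv ℝ (fun z : Fin 3 → ℝ => p2 (z 0) * p0 (z 1) * q (z 2)) x v +
        fderiv ℝ (fun z : Fin 3 → ℝ => p0 (z 0) * p2 (z 1) * q (z 2)) x v) := by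
    intro v
    have h : HasFDerivAt (fun z => vps b g p0 p2 p3 q z 2)
        (-(b / 4) • (fderiv ℝ (fun z : Fin 3 → ℝ => p2 (z 0) * p0 (z 1) * q (z 2)) x +
          fderiv ℝ (fun z : Fin 3 → ℝ => p0 (z 0) * p2 (z 1) * q (z 2)) x)) x :=
      ((t2 v).1.add (t2' v).1).const_mul (-(b / 4))
    rw [h.fderiv]
    rfl
  unfold curl pd
  rw [v2, v1, v0, v2, v1, v0]
  simp only [(t0 _).2, (t1 _).2, (t2 _).2, (t2' _).2]
  have s : ∀ i j : Fin 3, (Pi.single j (1 : ℝ) : Fin 3 → ℝ) i = if i = j then 1 else 0 :=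
    fun i j => Pi.single_apply j 1 i
  simp only [s]
  ext i
  fin_cases i
  · simp
  · simp
  · simp
    ring

end Pool.Agent.FTU.H67
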